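import Pool.Agent.H263_NU.Main

/-!
# Unlocking an open chain nested in a convex polygon is `NP`-hard, even in a triangle

The definitions (`Instance`, `Space`, `Straight`, `Unlockable`, `Valid`, `NestedUnlock`) are in
`Pool.Agent.H263_NU.Defs`; bit codes, polynomial time and `NP` are in `Pool.Agent.NPC.Defs`.
-/

namespace Pool.Agent.Results.MP_aff8ab_lc.NPHardTriangle

open Pool.Agent.NPC Pool.Agent.H263_NU

/-- NESTED-UNLOCK is `NP`-hard; this holds even for instances in which the closed chain is a
triangle (so that it is rigid). -/
theorem result : NPHardP NestedUnlock ∧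
    ∀ L : Set (List Bool), InNP L → ∃ f : List Bool → Instance,
      PolyTime (fun w => bits (f w)) ∧
        ∀ w, Valid (f w) ∧ (f w).1.length = 3 ∧ (w ∈ L ↔ Unlockable (f w)) :=
  main

end Pool.Agent.Results.MP_aff8ab_lc.NPHardTriangle
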